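import Pool.Agent.W996.MW.Stm

set_option autoImplicit false

namespace Pool.Agent.W368.MW.ARI

open Pool.Agent.W996.MW

theorem basic (n : ℕ) : n + 8 ≤ 2 ^ Nat.clog 2 (n + 8) ∧ 2 ^ Nat.clog 2 (n + 8) ≤ 2 * (n + 8) ∧
    Nat.clog 2 (n + 8) ≤ n + 8 := by
  have h1 : n + 8 ≤ 2 ^ Nat.clog 2 (n + 8) := Nat.le_pow_clog one_lt_two _
  have h2 : 2 ^ (Nat.clog 2 (n + 8)).pred < n + 8 :=
    Nat.pow_pred_clog_lt_self one_lt_two (by omega)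
  have h0 : 0 < Nat.clog 2 (n + 8) := Nat.clog_pos one_lt_two (by omega)
  have h5 : Nat.clog 2 (n + 8) = (Nat.clog 2 (n + 8)).pred + 1 :=
    (Nat.succ_pred_eq_of_pos h0).symm
  have h3 : 2 ^ Nat.clog 2 (n + 8) = 2 * 2 ^ (Nat.clog 2 (n + 8)).pred := by
    rw [← pow_succ']
    exact congrArg (fun t => 2 ^ t) h5
  have h4 : (Nat.clog 2 (n + 8)).pred < 2 ^ (Nat.clog 2 (n + 8)).pred :=
    Nat.lt_two_pow_self
  refine ⟨h1, by omega, by omega⟩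

theorem kkn (n : ℕ) : kk n * n + 5 ≤ 4 * (n + 8) ^ 2 := by
  have h := (basic n).2.2
  unfold kk
  have : 4 * Nat.clog 2 (n + 8) * n ≤ 4 * (n + 8) * n := by
    apply Nat.mul_le_mul_right; omega
  nlinarith

theorem two_kk (n : ℕ) : (n + 8) ^ 4 ≤ 2 ^ kk n ∧ 2 ^ kk n ≤ 16 * (n + 8) ^ 4 := by
  have h := basic n
  have h1 : 2 ^ kk n = (2 ^ Nat.clog 2 (n + 8)) ^ 4 := by
    unfold kk; rw [← pow_mul, mul_comm]
  rw [h1]
  refine ⟨Nat.pow_le_pow_left h.1 4, ?_⟩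
  have h2 := Nat.pow_le_pow_left h.2.1 4
  have h3 : (2 * (n + 8)) ^ 4 = 16 * (n + 8) ^ 4 := by ring
  omega

theorem ll_le (n : ℕ) : 2 * (kk n * n) + 2 ≤ 2 ^ ll n ∧ ll n ≤ 8 * (n + 8) ^ 2 := by
  refine ⟨Nat.le_pow_clog one_lt_two _, ?_⟩
  have h1 : ll n ≤ 2 * (kk n * n) + 2 := by
    unfold ll
    apply Nat.clog_le_of_le_pow
    exact Nat.lt_two_pow_self.le
  have h2 := kkn n
  omega

theorem KK_up (n : ℕ) : KK n ≤ 3 * (kk n * n + 5) * 2 ^ kk n + 1 := by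
  unfold KK
  apply Nat.add_le_add_right
  apply Nat.div_le_of_le_mul
  have h1 : 3 ^ kk n ≤ 2 ^ kk n * 2 ^ kk n := by
    rw [← mul_pow]; exact Nat.pow_le_pow_left (by norm_num) _
  calc 3 * (kk n * n + 5) * 3 ^ kk n ≤ 3 * (kk n * n + 5) * (2 ^ kk n * 2 ^ kk n) :=
        Nat.mul_le_mul_left _ h1
    _ = 2 ^ kk n * (3 * (kk n * n + 5) * 2 ^ kk n) := by ring

theorem p4 (n : ℕ) : KK n * (kk n * n * (2 * ll n)) ≤ 20000 * (n + 8) ^ 10 := by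
  have h1 := KK_up n
  have h2 := kkn n
  have h3 := (two_kk n).2
  have h4 := (ll_le n).2
  set m := n + 8 with hm
  have hK : KK n ≤ 192 * m ^ 6 + 1 := by
    calc KK n ≤ 3 * (kk n * n + 5) * 2 ^ kk n + 1 := h1
      _ ≤ 3 * (4 * m ^ 2) * (16 * m ^ 4) + 1 := by
        apply Nat.add_le_add_right
        exact Nat.mul_le_mul (Nat.mul_le_mul_left _ h2) h3
      _ = 192 * m ^ 6 + 1 := by ring
  have hN : kk n * n ≤ 4 * m ^ 2 := by omega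
  calc KK n * (kk n * n * (2 * ll n)) ≤ (192 * m ^ 6 + 1) * (4 * m ^ 2 * (2 * (8 * m ^ 2))) :=
        Nat.mul_le_mul hK (Nat.mul_le_mul hN (Nat.mul_le_mul_left _ h4))
    _ = 12288 * m ^ 10 + 64 * m ^ 4 := by ring
    _ ≤ 12288 * m ^ 10 + 64 * m ^ 10 := by
        apply Nat.add_le_add_left
        apply Nat.mul_le_mul_left
        exact Nat.pow_le_pow_right (by omega) (by norm_num)
    _ ≤ 20000 * m ^ 10 := by nlinarith [Nat.zero_le (m ^ 10)]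

theorem p1 (n : ℕ) : (1 / 2 : ℝ) ≤ (1 - (1 / 2 : ℝ) ^ ll n) ^ (kk n * n) := by
  have h1 := (ll_le n).1
  have h1' : (2 * ((kk n * n : ℕ) : ℝ) + 2) ≤ 2 ^ ll n := by exact_mod_cast h1
  set N := kk n * n with hN
  have hN0 : (0 : ℝ) ≤ (N : ℝ) := Nat.cast_nonneg N
  have h2 : (1 / 2 : ℝ) ^ ll n ≤ 1 / (2 * (N : ℝ) + 2) := by
    rw [one_div_pow]
    exact one_div_le_one_div_of_le (by linarith) h1'
  have h3 : (1 / 2 : ℝ) ^ ll n ≤ 1 := pow_le_one₀ (by norm_num) (by norm_num)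
  have h4 := one_add_mul_le_pow (a := -(1 / 2 : ℝ) ^ ll n) (by linarith) N
  have h5 : (N : ℝ) * (1 / 2 : ℝ) ^ ll n ≤ N * (1 / (2 * (N : ℝ) + 2)) :=
    mul_le_mul_of_nonneg_left h2 hN0
  have h6 : (N : ℝ) * (1 / (2 * (N : ℝ) + 2)) ≤ 1 / 2 := by
    rw [mul_one_div, div_le_iff₀ (by linarith)]
    linarith
  have h7 : (1 + -(1 / 2 : ℝ) ^ ll n) = 1 - (1 / 2 : ℝ) ^ ll n := by ring
  rw [h7] at h4
  refine le_trans ?_ h4
  have h8 : (N : ℝ) * -(1 / 2 : ℝ) ^ ll n = -((N : ℝ) * (1 / 2 : ℝ) ^ ll n) := by ring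
  rw [h8]
  linarith

theorem p2 (n : ℕ) : (KK n : ℝ) * (1 / 3 : ℝ) ^ kk n ≤ 1 / 3 := by
  have h1 : (KK n : ℝ) ≤ 3 * ((kk n * n : ℕ) + 5 : ℝ) * 3 ^ kk n / 2 ^ kk n + 1 := by
    unfold KK
    have := Nat.cast_div_le (α := ℝ) (m := 3 * (kk n * n + 5) * 3 ^ kk n) (n := 2 ^ kk n)
    push_cast at this ⊢
    linarith
  have h2 : (((kk n * n : ℕ) : ℝ) + 5) ≤ 4 * ((n : ℝ) + 8) ^ 2 := by exact_mod_cast kkn n
  have h3 : ((n : ℝ) + 8) ^ 4 ≤ 2 ^ kk n := by exact_mod_cast (two_kk n).1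
  set m : ℝ := (n : ℝ) + 8 with hm
  have hm8 : 8 ≤ m := by
    have : (0 : ℝ) ≤ (n : ℝ) := Nat.cast_nonneg n
    linarith
  have h4 : (2 : ℝ) ^ kk n ≤ 3 ^ kk n := pow_le_pow_left₀ (by norm_num) (by norm_num) _
  have p2 : (0 : ℝ) < 2 ^ kk n := by positivity
  have p3 : (0 : ℝ) < 3 ^ kk n := by positivity
  have h5 : (KK n : ℝ) * (1 / 3 : ℝ) ^ kk n ≤
      (3 * ((kk n * n : ℕ) + 5 : ℝ) * 3 ^ kk n / 2 ^ kk n + 1) * (1 / 3 : ℝ) ^ kk n :=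
    mul_le_mul_of_nonneg_right h1 (by positivity)
  have h6 : (3 * ((kk n * n : ℕ) + 5 : ℝ) * 3 ^ kk n / 2 ^ kk n + 1) * (1 / 3 : ℝ) ^ kk n =
      3 * ((kk n * n : ℕ) + 5 : ℝ) * (1 / 2 ^ kk n) + 1 / 3 ^ kk n := by
    rw [one_div_pow]
    field_simp
  have hi2 : (1 : ℝ) / 2 ^ kk n ≤ 1 / m ^ 4 :=
    one_div_le_one_div_of_le (by positivity) h3
  have hi3 : (1 : ℝ) / 3 ^ kk n ≤ 1 / m ^ 4 :=
    one_div_le_one_div_of_le (by positivity) (h3.trans h4)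
  have h7 : 3 * ((kk n * n : ℕ) + 5 : ℝ) * (1 / 2 ^ kk n) ≤ 3 * (4 * m ^ 2) * (1 / m ^ 4) :=
    mul_le_mul (by linarith) hi2 (by positivity) (by positivity)
  have h8 : 3 * (4 * m ^ 2) * (1 / m ^ 4) = 12 * (1 / m ^ 2) := by
    field_simp
    norm_num
  have h9 : (1 : ℝ) / m ^ 2 ≤ 1 / 64 :=
    one_div_le_one_div_of_le (by norm_num) (by nlinarith)
  have h10 : (1 : ℝ) / m ^ 4 ≤ 1 / 4096 := by
    apply one_div_le_one_div_of_le (by norm_num)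
    calc (4096 : ℝ) = 8 ^ 4 := by norm_num
      _ ≤ m ^ 4 := pow_le_pow_left₀ (by norm_num) hm8 4
  rw [h6] at h5
  rw [h8] at h7
  linarith

theorem p3 (n : ℕ) : (1 - (1 / 2) * (2 / 3 : ℝ) ^ kk n / (5 + (kk n * n : ℕ))) ^ KK n ≤ 1 / 3 := by
  have h1 : 3 * ((kk n * n : ℕ) + 5 : ℝ) * 3 ^ kk n / 2 ^ kk n ≤ (KK n : ℝ) := by
    unfold KK
    rw [div_le_iff₀ (by positivity)]
    have := (Nat.lt_mul_div_succ (3 * (kk n * n + 5) * 3 ^ kk n) (b := 2 ^ kk n) (by positivity)).le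
    rw [mul_comm (2 ^ kk n)] at this
    exact_mod_cast this
  set N : ℝ := ((kk n * n : ℕ) : ℝ) with hN
  have hN0 : 0 ≤ N := Nat.cast_nonneg _
  set b : ℝ := (1 / 2) * (2 / 3 : ℝ) ^ kk n / (5 + N) with hb
  have hp : (2 / 3 : ℝ) ^ kk n ≤ 1 := pow_le_one₀ (by norm_num) (by norm_num)
  have hp0 : (0 : ℝ) < (2 / 3 : ℝ) ^ kk n := by positivity
  have hb0 : 0 ≤ b := by positivity
  have hb1 : b ≤ 1 := by
    rw [hb, div_le_one (by linarith)]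
    linarith
  have hbK : (3 / 2 : ℝ) ≤ b * KK n := by
    calc (3 / 2 : ℝ) = b * (3 * (N + 5) * 3 ^ kk n / 2 ^ kk n) := by
          rw [hb, div_pow]
          have : (5 + N) ≠ 0 := by positivity
          have h5 : N + 5 = 5 + N := by ring
          rw [h5]
          field_simp
      _ ≤ b * KK n := mul_le_mul_of_nonneg_left h1 hb0
  have h2 : (1 - b) ^ KK n ≤ Real.exp (-b) ^ KK n :=
    pow_le_pow_left₀ (by linarith) (Real.one_sub_le_exp_neg b) _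
  have h3 : Real.exp (-b) ^ KK n = Real.exp (-(b * KK n)) := by
    rw [← Real.exp_nat_mul]; congr 1; ring
  have h4 : Real.exp (-(b * KK n)) ≤ Real.exp (-(3 / 2)) := Real.exp_le_exp.mpr (by linarith)
  have h5 : Real.exp (-(3 / 2 : ℝ)) ≤ 1 / 3 := by
    rw [Real.exp_neg, ← one_div]
    apply one_div_le_one_div_of_le (by norm_num)
    have h6 : Real.exp (3 / 2) = Real.exp 1 * Real.exp (1 / 2) := by
      rw [← Real.exp_add]; norm_num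
    have h7 := Real.exp_one_gt_d9
    have h8 : (1 / 2 : ℝ) + 1 ≤ Real.exp (1 / 2) := Real.add_one_le_exp _
    rw [h6]
    nlinarith
  linarith

theorem main : S_ARI := fun n => ⟨p1 n, p2 n, p3 n, p4 n⟩

end Pool.Agent.W368.MW.ARI
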